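import Mathlib

/-!
# Compactified Jacobians of nodal curves with rational components

Definitions for the statement that a certain fine compactified universal Jacobian over
the moduli space of stable 6-pointed curves of genus 2 has a non-projective fibre.
-/

namespace Pool.Agent.helper72.CJ

open Finset

/-- A nodal curve with `n` marked points all of whose components are projective lines over
the field `k`: the components are indexed by `V`, the nodes by `E`. The node `e` is obtained by
gluing the point with coordinate `p e` of the component `src e` to the point with coordinate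
`q e` of the component `tgt e`; the `i`-th marked point is the point with coordinate `r i` of
the component `mark i`. The conditions say that these points are distinct. (The points
at infinity are unmarked smooth points.) -/
structure Curve (k : Type) [Field k] (V E : Type) (n : ℕ) where
  src : E → V
  tgt : E → V
  p : E → k
  q : E → k
  mark : Fin n → V
  r : Fin n → k
  pp : ∀ e e', src e = src e' → p e = p e' → e = e'
  qq : ∀ e e', tgt e = tgt e' → q e = q e' → e = e'
  pq : ∀ e e', src e = tgt e' → p e ≠ q e'
  pr : ∀ e i, src e = mark i → p e ≠ r i
  qr : ∀ e i, tgt e = mark i → q e ≠ r i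
  rr : ∀ i j, mark i = mark j → r i = r j → i = j

/-- The data of a family, parametrised by `Spec A`, of torsion-free sheaves of rank one on a
curve with components `V` and nodes `E` (a generalised parabolic line bundle on the
normalisation): the degrees `d v` of a line bundle on the components and, for every node `e`, a
line in the sum of its two fibres over the node, generated by the unimodular vector
`(a e, b e)`. See `sec` for the sheaf. -/
structure Fam (A V E : Type) [CommRing A] where
  d : V → ℤ
  a : E → A
  b : E → A
  cop : ∀ e, IsCoprime (a e) (b e)

variable {k : Type} [Field k] {V E : Type} {n : ℕ}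

/-- Base change of a family. -/
def Fam.map {A B : Type} [CommRing A] [CommRing B] (f : A →+* B) (F : Fam A V E) : Fam B V E where
  d := F.d
  a := fun e => f (F.a e)
  b := fun e => f (F.b e)
  cop := fun e => (F.cop e).map f

section sheaf

variable {A : Type} [CommRing A] [Algebra k A]

/-- The sheaf attached to a family `F`: its sections over the affine curve obtained by removing
the points at infinity of all components are the tuples of polynomials `s` such that, at every
node `e`, the pair of values of `s` at the two points over `e` lies on the line generated by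
`(a e, b e)`. -/
def sec (C : Curve k V E n) (F : Fam A V E) : AddSubgroup (V → Polynomial A) where
  carrier := {s | ∀ e, F.b e * (s (C.src e)).eval (algebraMap k A (C.p e)) =
    F.a e * (s (C.tgt e)).eval (algebraMap k A (C.q e))}
  add_mem' := by
    intro s t hs ht e
    have h1 := hs e
    have h2 := ht e
    simp only [Pi.add_apply, Polynomial.eval_add, mul_add]
    rw [h1, h2]
  zero_mem' := by
    intro e
    simp
  neg_mem' := by
    intro s hs e
    have h1 := hs e
    simp only [Pi.neg_apply, Polynomial.eval_neg, mul_neg]
    rw [h1]

/-- The regular functions on the affine curve obtained by removing the points at infinity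
(with values in `A`): tuples of polynomials with equal values at the two points over
each node. -/
def regular (C : Curve k V E n) (A : Type) [CommRing A] [Algebra k A] :
    Set (V → Polynomial A) :=
  {f | ∀ e, (f (C.src e)).eval (algebraMap k A (C.p e)) =
    (f (C.tgt e)).eval (algebraMap k A (C.q e))}

/-- The pole of `s` at the point at infinity of the component `v`, as a section of the line
bundle of degree `d v`, has order at most `m v`, for every `v`. -/
def PoleLE (d m : V → ℤ) (s : V → Polynomial A) : Prop :=
  ∀ (v : V) (j : ℕ), d v + m v < j → (s v).coeff j = 0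

/-- The sheaves attached to the families `F` and `F'` are isomorphic: there is an isomorphism
between their modules of sections over the affine curve, linear over the regular
functions, that respects the order of the poles at infinity. -/
def SheafIso (C : Curve k V E n) (F F' : Fam A V E) : Prop :=
  ∃ θ : sec C F ≃+ sec C F',
    (∀ f ∈ regular C A, ∀ s t : sec C F, (t : V → Polynomial A) = f * (s : V → Polynomial A) →
      (θ t : V → Polynomial A) = f * (θ s : V → Polynomial A)) ∧
    ∀ (m : V → ℤ) (s : sec C F), PoleLE F.d m (s : V → Polynomial A) ↔
      PoleLE F'.d m (θ s : V → Polynomial A)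

end sheaf

/-- A set of components is connected: it is nonempty, and no proper nonempty part of it has no
node in common with the rest. -/
def Conn (C : Curve k V E n) [DecidableEq V] (Y : Finset V) : Prop :=
  Y.Nonempty ∧ ∀ Z ⊆ Y, Z.Nonempty → Z ≠ Y →
    ∃ e, (C.src e ∈ Z ∧ C.tgt e ∈ Y \ Z) ∨ (C.tgt e ∈ Z ∧ C.src e ∈ Y \ Z)

open Classical in
/-- The Euler characteristic of the restriction to the subcurve `Y`, modulo torsion, of the
sheaf attached to a family over a field. -/
noncomputable def chi {K : Type} [Field K] (C : Curve k V E n) [Fintype E] (F : Fam K V E)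
    (Y : Finset V) : ℤ :=
  ∑ v ∈ Y, (F.d v + 1) -
    ∑ e, if (C.src e ∈ Y ∧ C.tgt e ∈ Y) ∨ (C.src e ∈ Y ∧ C.tgt e ∉ Y ∧ F.a e = 0) ∨
      (C.src e ∉ Y ∧ C.tgt e ∈ Y ∧ F.b e = 0) then 1 else 0

/-- A fine universal stability condition (`V`-stability) of type `(g, n)` and characteristic
`χ`. The integer `val t h A` is the bound attached to connected subcurves with connected
complement, of genus `h`, with set of markings `A` and with `t` nodes in common with the
complement. -/
structure FineV (g n : ℕ) (χ : ℤ) where
  val : ℕ → ℕ → Finset (Fin n) → ℤ
  compl : ∀ (t h h' : ℕ) (A : Finset (Fin n)), 1 ≤ t → h + h' + t = g + 1 →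
    2 < 2 * h + t + A.card → 2 < 2 * h' + t + Aᶜ.card →
    val t h A + val t h' Aᶜ = χ + 1
  tri : ∀ (a b c h₁ h₂ h₃ : ℕ) (A₁ A₂ A₃ : Finset (Fin n)), 1 ≤ a → 1 ≤ b → 1 ≤ c →
    h₁ + h₂ + h₃ + a + b + c = g + 2 →
    Disjoint A₁ A₂ → Disjoint A₁ A₃ → Disjoint A₂ A₃ → A₁ ∪ A₂ ∪ A₃ = Finset.univ →
    2 < 2 * h₁ + (a + b) + A₁.card → 2 < 2 * h₂ + (a + c) + A₂.card →
    2 < 2 * h₃ + (b + c) + A₃.card →
    val (a + b) h₁ A₁ + val (a + c) h₂ A₂ + val (b + c) h₃ A₃ = χ + 1 ∨
      val (a + b) h₁ A₁ + val (a + c) h₂ A₂ + val (b + c) h₃ A₃ = χ + 2

/-- The bound which a universal stability condition attaches to the subcurve `Y` of `C`. -/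
def FineV.bound {g n : ℕ} {χ : ℤ} (σ : FineV g n χ) [DecidableEq V] [Fintype E]
    (C : Curve k V E n) (Y : Finset V) : ℤ :=
  σ.val (univ.filter fun e => ¬ (C.src e ∈ Y ↔ C.tgt e ∈ Y)).card
    ((univ.filter fun e => C.src e ∈ Y ∧ C.tgt e ∈ Y).card + 1 - Y.card)
    (univ.filter fun i => C.mark i ∈ Y)

/-- A family of `σ`-stable torsion-free sheaves of rank one on `C`, parametrised by `Spec A`:
at every point of `Spec A` with values in a field, the Euler characteristic of the sheaf is `χ`,
and that of its restriction to `Y` modulo torsion is at least the bound, for every subcurve `Y`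
such that `Y` and its complement are connected. -/
def Stable {g : ℕ} {χ : ℤ} (σ : FineV g n χ) (C : Curve k V E n) [DecidableEq V] [Fintype V]
    [Fintype E] {A : Type} [CommRing A] (F : Fam A V E) : Prop :=
  ∀ (K : Type) [Field K] (f : A →+* K), chi C (F.map f) univ = χ ∧
    ∀ Y : Finset V, Conn C Y → Conn C Yᶜ → σ.bound C Y ≤ chi C (F.map f) Y

/-- Base change of a submodule of a finite free module along a ring homomorphism. -/
def bc {A B : Type} [CommRing A] [CommRing B] {m : ℕ} (f : A →+* B)
    (ℓ : Submodule A (Fin m → A)) : Submodule B (Fin m → B) :=
  Submodule.span B ((fun x : Fin m → A => fun i => f (x i)) '' (ℓ : Set (Fin m → A)))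

/-- The points of projective space of dimension `m - 1` with values in `A`: submodules of
`A ^ m` that are direct summands and have rank one at all points of `Spec A`. -/
def IsPoint {A : Type} [CommRing A] {m : ℕ} (ℓ : Submodule A (Fin m → A)) : Prop :=
  (∃ ℓ' : Submodule A (Fin m → A), IsCompl ℓ ℓ') ∧
    ∀ (K : Type) [Field K] (f : A →+* K), Module.finrank K (bc f ℓ) = 1

/-- An injective morphism from the moduli problem of `σ`-stable torsion-free sheaves of rank one
on `C` to the projective space of dimension `m - 1` over `k`: a rule `Φ` that attaches to
every family of stable sheaves over a `k`-algebra `A` an `A`-valued point of projective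
space, depends only on the isomorphism class of the sheaf, is compatible with base change, and
takes different values on non-isomorphic sheaves over `k`. -/
structure ProjMap {g : ℕ} {χ : ℤ} (σ : FineV g n χ) (C : Curve k V E n) [DecidableEq V]
    [Fintype V] [Fintype E] (m : ℕ) where
  Φ : ∀ (A : Type) [CommRing A] [Algebra k A], Fam A V E → Submodule A (Fin m → A)
  isPoint : ∀ (A : Type) [CommRing A] [Algebra k A] (F : Fam A V E), Stable σ C F →
    IsPoint (Φ A F)
  iso : ∀ (A : Type) [CommRing A] [Algebra k A] (F F' : Fam A V E), Stable σ C F →
    Stable σ C F' → SheafIso C F F' → Φ A F = Φ A F'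
  base : ∀ (A B : Type) [CommRing A] [Algebra k A] [CommRing B] [Algebra k B] (f : A →ₐ[k] B)
    (F : Fam A V E), Stable σ C F → Φ B (F.map (f : A →+* B)) = bc (f : A →+* B) (Φ A F)
  inj : ∀ F F' : Fam k V E, Stable σ C F → Stable σ C F' → Φ k F = Φ k F' → SheafIso C F F'

end Pool.Agent.helper72.CJ
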