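import Mathlib
import Pool.Agent.helper72.CJ.Defs

/-!
# The curve and the stability condition; the charts
-/

namespace Pool.Agent.helper72.CJ

open Finset

/-- Dual graph: components 0 and 7 are joined by the paths 0-1-2-7, 0-3-4-7, 0-5-6-7. -/
def srcT : Fin 9 → Fin 8 := ![0, 1, 2, 0, 3, 4, 0, 5, 6]

def tgtT : Fin 9 → Fin 8 := ![1, 2, 7, 3, 4, 7, 5, 6, 7]

def markT : Fin 6 → Fin 8 := ![1, 2, 3, 4, 5, 6]

/-- The triples on which the self-dual monotone function `delta` takes the value one. -/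
def triplesT : Finset (Finset (Fin 6)) :=
  {{0, 1, 2}, {0, 1, 3}, {2, 3, 4}, {2, 3, 5}, {0, 4, 5}, {1, 4, 5}, {0, 2, 4}, {0, 2, 5},
    {0, 3, 4}, {1, 2, 4}}

/-- A self-dual monotone Boolean function of six variables that is not a threshold function. -/
def delta (A : Finset (Fin 6)) : ℤ := if 4 ≤ A.card ∨ A ∈ triplesT then 1 else 0

def valT (t h : ℕ) (A : Finset (Fin 6)) : ℤ :=
  if t = 3 then (A.card : ℤ) - delta A
  else if t = 2 then (if h = 0 then (A.card : ℤ) else (A.card : ℤ) - 1)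
  else (if h = 0 ∨ (h = 1 ∧ 0 ∈ A) then 0 else 5)

/-- A flag: a node together with one of its two branches. -/
abbrev Flag := Fin 9 × Bool

/-- The family with degrees `D`, glued by `(1, x)` at the node of the flag `f₁` if this flag
is positive and by `(x, 1)` otherwise, similarly by `y` at the flag `f₂`, and by `(1, 1)` at
all other nodes. -/
def chart (D : Fin 8 → ℤ) (f₁ f₂ : Flag) (h : f₁.1 ≠ f₂.1) {A : Type} [CommRing A] (x y : A) :
    Fam A (Fin 8) (Fin 9) where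
  d := D
  a := fun e => if (e, false) = f₁ then x else if (e, false) = f₂ then y else 1
  b := fun e => if (e, true) = f₁ then x else if (e, true) = f₂ then y else 1
  cop := by
    intro e
    obtain ⟨e₁, s₁⟩ := f₁
    obtain ⟨e₂, s₂⟩ := f₂
    simp only [ne_eq] at h
    by_cases h1 : e = e₁
    · subst h1
      cases s₁ <;> simp [Prod.ext_iff, h, isCoprime_one_left, isCoprime_one_right]
    · by_cases h2 : e = e₂
      · subst h2
        cases s₂ <;> simp [Prod.ext_iff, h1, isCoprime_one_left, isCoprime_one_right]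
      · simp [Prod.ext_iff, h1, h2, isCoprime_one_left]

/-- The pairing of `ℤ × ℤ` with itself. -/
def pr (r m : ℤ × ℤ) : ℤ := r.1 * m.1 + r.2 * m.2

/-- The ray (one-parameter subgroup) of a flag. -/
def ray (f : Flag) : ℤ × ℤ :=
  (if f.2 then 1 else -1 : ℤ) •
    (if f.1 ≤ 2 then ((1, 0) : ℤ × ℤ) else if f.1 ≤ 5 then (0, 1) else (-1, -1))

/-- The Euler characteristics of the sheaf with degrees `D` whose value vanishes on the
branches of the flags in `S`. -/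
def chiC (D : Fin 8 → ℤ) (S : List Flag) (Y : Finset (Fin 8)) : ℤ :=
  ∑ v ∈ Y, (D v + 1) -
    ∑ e : Fin 9, if (srcT e ∈ Y ∧ tgtT e ∈ Y) ∨ (srcT e ∈ Y ∧ tgtT e ∉ Y ∧ (e, false) ∈ S) ∨
      (srcT e ∉ Y ∧ tgtT e ∈ Y ∧ (e, true) ∈ S) then 1 else 0

/-- Connectedness for the dual graph `srcT`, `tgtT`. -/
def ConnT (Y : Finset (Fin 8)) : Prop :=
  Y.Nonempty ∧ ∀ Z ⊆ Y, Z.Nonempty → Z ≠ Y →
    ∃ e, (srcT e ∈ Z ∧ tgtT e ∈ Y \ Z) ∨ (tgtT e ∈ Z ∧ srcT e ∈ Y \ Z)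

/-- The bounds for the dual graph `srcT`, `tgtT`. -/
def boundT (Y : Finset (Fin 8)) : ℤ :=
  valT (univ.filter fun e => ¬ (srcT e ∈ Y ↔ tgtT e ∈ Y)).card
    ((univ.filter fun e => srcT e ∈ Y ∧ tgtT e ∈ Y).card + 1 - Y.card)
    (univ.filter fun i => markT i ∈ Y)

/-- The sheaf with degrees `D` whose value vanishes on the branches of the flags in `S` is
stable. -/
def OkS (D : Fin 8 → ℤ) (S : List Flag) : Prop :=
  chiC D S univ = 4 ∧ ∀ Y : Finset (Fin 8), ConnT Y → ConnT Yᶜ → boundT Y ≤ chiC D S Y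

/-- The chart of the surface `D` at the flags `f₁`, `f₂` consists of stable sheaves, and
the two rays generate a unimodular cone. -/
def Ok (D : Fin 8 → ℤ) (f₁ f₂ : Flag) : Prop :=
  f₁.1 ≠ f₂.1 ∧ ((ray f₁).1 * (ray f₂).2 - (ray f₁).2 * (ray f₂).1) ^ 2 = 1 ∧
    OkS D [] ∧ OkS D [f₁] ∧ OkS D [f₂] ∧ OkS D [f₁, f₂]

/-- The six surfaces. -/
def D1 : Fin 8 → ℤ := ![0, 1, 0, 1, 0, 1, 1, 1]
def D2 : Fin 8 → ℤ := ![0, 1, 0, 1, 1, 1, 0, 1]
def D3 : Fin 8 → ℤ := ![0, 1, 0, 1, 1, 1, 1, 0]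
def D4 : Fin 8 → ℤ := ![0, 1, 1, 1, 0, 1, 0, 1]
def D5 : Fin 8 → ℤ := ![0, 1, 1, 1, 0, 1, 1, 0]
def D6 : Fin 8 → ℤ := ![0, 1, 1, 1, 1, 1, 0, 0]

/-- `ℓ` is generated by a vector of polynomials without common factor `X`, of degree `p`. -/
def HasDeg {k : Type} [Field k] {m : ℕ} (ℓ : Submodule (Polynomial k) (Fin m → Polynomial k))
    (p : ℤ) : Prop :=
  ∃ g : Fin m → Polynomial k, ℓ = Submodule.span (Polynomial k) {g} ∧
    (∃ i, (g i).coeff 0 ≠ 0) ∧ (∀ i, ((g i).natDegree : ℤ) ≤ p) ∧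
    ∃ i, g i ≠ 0 ∧ ((g i).natDegree : ℤ) = p

end Pool.Agent.helper72.CJ
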