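import Mathlib
import Pool.Agent.helper72.CJ.Theta
import Pool.Agent.helper60.CJ.S
import Pool.Agent.helper4.CJ.P
import Pool.Agent.helper4.CJ.L
import Pool.Agent.helper33.CJ.I

/-!
# Surfaces: the vertices of the Newton polygon
-/

namespace Pool.Agent.helper72.CJ

open Finset Pool.Agent.helper4.CJ Pool.Agent.helper33.CJ

theorem chart_map (D : Fin 8 → ℤ) (f₁ f₂ : Flag) (h : f₁.1 ≠ f₂.1) {A B : Type} [CommRing A]
    [CommRing B] (f : A →+* B) (x y : A) :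
    (chart D f₁ f₂ h x y).map f = chart D f₁ f₂ h (f x) (f y) := by
  simp only [Fam.map, chart, Fam.mk.injEq, true_and]
  constructor <;>
  · funext e
    split_ifs <;> simp

theorem Stable.map {σ : FineV 2 6 4} {k : Type} [Field k] {C : Curve k (Fin 8) (Fin 9) 6}
    {A B : Type} [CommRing A] [CommRing B] {F : Fam A (Fin 8) (Fin 9)} (hF : Stable σ C F)
    (f : A →+* B) : Stable σ C (F.map f) := by
  intro K _ g
  exact hF K (g.comp f)

section laurent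

variable {k : Type} [Field k]

/-- The monomial with exponent `w`. -/
noncomputable def mono (k : Type) [Field k] (w : ℤ × ℤ) : AddMonoidAlgebra k (ℤ × ℤ) :=
  AddMonoidAlgebra.single w 1

theorem mono_mul (w w' : ℤ × ℤ) : mono k w * mono k w' = mono k (w + w') := by
  simp [mono, AddMonoidAlgebra.single_mul_single]

theorem mono_zero : mono k 0 = 1 := rfl

/-- The monomial with exponent `w` as a unit. -/
noncomputable def monoU (k : Type) [Field k] (w : ℤ × ℤ) : (AddMonoidAlgebra k (ℤ × ℤ))ˣ where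
  val := mono k w
  inv := mono k (-w)
  val_inv := by rw [mono_mul, add_neg_cancel, mono_zero]
  inv_val := by rw [mono_mul, neg_add_cancel, mono_zero]

theorem monoU_val (w : ℤ × ℤ) : ((monoU k w : (AddMonoidAlgebra k (ℤ × ℤ))ˣ) :
    AddMonoidAlgebra k (ℤ × ℤ)) = mono k w := rfl

/-- The dual basis. -/
def dual₁ (r₁ r₂ : ℤ × ℤ) : ℤ × ℤ := (r₁.1 * r₂.2 - r₁.2 * r₂.1) • (r₂.2, -r₂.1)

def dual₂ (r₁ r₂ : ℤ × ℤ) : ℤ × ℤ := (r₁.1 * r₂.2 - r₁.2 * r₂.1) • (-r₁.2, r₁.1)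

theorem pr_add (r m m' : ℤ × ℤ) : pr r (m + m') = pr r m + pr r m' := by
  simp [pr]; ring

theorem pr_sub (r m m' : ℤ × ℤ) : pr r (m - m') = pr r m - pr r m' := by
  simp [pr]; ring

theorem pr_nsmul (r m : ℤ × ℤ) (i : ℕ) : pr r (i • m) = i * pr r m := by
  simp [pr]; ring

theorem pr_add_left (r s m : ℤ × ℤ) : pr (r + s) m = pr r m + pr s m := by
  simp [pr]; ring

theorem pr_zsmul_left (r m : ℤ × ℤ) (b : ℤ) : pr (b • r) m = b * pr r m := by
  simp [pr]; ring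

theorem pr_zero (r : ℤ × ℤ) : pr r 0 = 0 := by simp [pr]

variable {r₁ r₂ : ℤ × ℤ} (hd : (r₁.1 * r₂.2 - r₁.2 * r₂.1) ^ 2 = 1)

include hd in
theorem pr_dual₁₁ : pr r₁ (dual₁ r₁ r₂) = 1 := by
  simp [pr, dual₁]; linear_combination hd

omit hd in
theorem pr_dual₂₁ : pr r₂ (dual₁ r₁ r₂) = 0 := by
  simp [pr, dual₁]; ring

omit hd in
theorem pr_dual₁₂ : pr r₁ (dual₂ r₁ r₂) = 0 := by
  simp [pr, dual₂]; ring

include hd in
theorem pr_dual₂₂ : pr r₂ (dual₂ r₁ r₂) = 1 := by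
  simp [pr, dual₂]; linear_combination hd

include hd in
theorem eq_of_pr {u u' : ℤ × ℤ} (h1 : pr r₁ u = pr r₁ u') (h2 : pr r₂ u = pr r₂ u') : u = u' := by
  obtain ⟨a, b⟩ := r₁
  obtain ⟨c, d⟩ := r₂
  obtain ⟨x, y⟩ := u
  obtain ⟨x', y'⟩ := u'
  simp only [pr] at *
  have h3 : (a * d - b * c) ^ 2 * (x - x') = 0 := by
    linear_combination (a * d - b * c) * d * h1 - (a * d - b * c) * b * h2
  have h4 : (a * d - b * c) ^ 2 * (y - y') = 0 := by
    linear_combination -(a * d - b * c) * c * h1 + (a * d - b * c) * a * h2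
  rw [hd] at h3 h4
  ext <;> simp <;> linarith

/-- The substitution of monomials. -/
noncomputable def phi (k : Type) [Field k] (w₁ w₂ : ℤ × ℤ) :
    MvPolynomial (Fin 2) k →ₐ[k] AddMonoidAlgebra k (ℤ × ℤ) :=
  MvPolynomial.aeval ![mono k w₁, mono k w₂]

theorem mono_pow (w : ℤ × ℤ) (i : ℕ) : mono k w ^ i = mono k (i • w) := by
  induction i with
  | zero => simp [mono_zero]
  | succ i ih => rw [pow_succ, ih, mono_mul, succ_nsmul]

theorem phi_eq (w₁ w₂ : ℤ × ℤ) (g : MvPolynomial (Fin 2) k) :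
    phi k w₁ w₂ g = ∑ m ∈ g.support,
      AddMonoidAlgebra.single (m 0 • w₁ + m 1 • w₂) (g.coeff m) := by
  rw [phi, MvPolynomial.aeval_def, MvPolynomial.eval₂_eq']
  refine Finset.sum_congr rfl fun m _ => ?_
  rw [Fin.prod_univ_two]
  simp only [Matrix.cons_val_zero, Matrix.cons_val_one, mono_pow, mono_mul]
  rw [← Algebra.smul_def, mono, AddMonoidAlgebra.smul_single, smul_eq_mul, mul_one]

theorem coeff_phi (w₁ w₂ : ℤ × ℤ) (g : MvPolynomial (Fin 2) k) (u : ℤ × ℤ) :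
    (phi k w₁ w₂ g).coeff u = ∑ m ∈ g.support,
      if m 0 • w₁ + m 1 • w₂ = u then g.coeff m else 0 := by
  rw [phi_eq]
  rw [AddMonoidAlgebra.coeff_sum, Finsupp.finsetSum_apply]
  refine Finset.sum_congr rfl fun m _ => ?_
  rw [AddMonoidAlgebra.coeff_single, Finsupp.single_apply]

/-- The exponent `(i, j)`. -/
noncomputable def expo (i j : ℕ) : Fin 2 →₀ ℕ := Finsupp.equivFunOnFinite.symm ![i, j]

theorem expo_zero (i j : ℕ) : expo i j 0 = i := by simp [expo]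

theorem expo_one (i j : ℕ) : expo i j 1 = j := by simp [expo]

theorem eq_expo (m : Fin 2 →₀ ℕ) : m = expo (m 0) (m 1) := by
  ext i
  fin_cases i <;> simp [expo]

theorem expo_zz : expo 0 0 = 0 := by
  ext i
  fin_cases i <;> simp [expo]

include hd in
theorem coeff_phi_of_nonneg (g : MvPolynomial (Fin 2) k) (u : ℤ × ℤ) (i j : ℕ)
    (hi : pr r₁ u = i) (hj : pr r₂ u = j) :
    (phi k (dual₁ r₁ r₂) (dual₂ r₁ r₂) g).coeff u = g.coeff (expo i j) := by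
  rw [coeff_phi]
  have key : ∀ m : Fin 2 →₀ ℕ, m 0 • dual₁ r₁ r₂ + m 1 • dual₂ r₁ r₂ = u ↔ m = expo i j := by
    intro m
    constructor
    · intro h
      have h1 : pr r₁ u = m 0 := by
        rw [← h, pr_add, pr_nsmul, pr_nsmul, pr_dual₁₁ hd, pr_dual₁₂]; ring
      have h2 : pr r₂ u = m 1 := by
        rw [← h, pr_add, pr_nsmul, pr_nsmul, pr_dual₂₁, pr_dual₂₂ hd]; ring
      rw [eq_expo m]
      congr 1
      · have := h1.symm.trans hi; exact_mod_cast this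
      · have := h2.symm.trans hj; exact_mod_cast this
    · rintro rfl
      refine eq_of_pr hd ?_ ?_
      · rw [pr_add, pr_nsmul, pr_nsmul, pr_dual₁₁ hd, pr_dual₁₂, hi, expo_zero]; ring
      · rw [pr_add, pr_nsmul, pr_nsmul, pr_dual₂₁, pr_dual₂₂ hd, hj, expo_one]; ring
  simp only [key]
  rw [Finset.sum_ite_eq' g.support (expo i j)]
  split_ifs with h
  · rfl
  · exact (MvPolynomial.notMem_support_iff.mp h).symm

include hd in
theorem nonneg_of_coeff_phi (g : MvPolynomial (Fin 2) k) (u : ℤ × ℤ)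
    (h : (phi k (dual₁ r₁ r₂) (dual₂ r₁ r₂) g).coeff u ≠ 0) : 0 ≤ pr r₁ u ∧ 0 ≤ pr r₂ u := by
  rw [coeff_phi] at h
  obtain ⟨m, _, hm⟩ := Finset.exists_ne_zero_of_sum_ne_zero h
  have h' : m 0 • dual₁ r₁ r₂ + m 1 • dual₂ r₁ r₂ = u := by
    by_contra hne
    rw [if_neg hne] at hm
    exact hm rfl
  constructor
  · rw [← h', pr_add, pr_nsmul, pr_nsmul, pr_dual₁₁ hd, pr_dual₁₂]
    positivity
  · rw [← h', pr_add, pr_nsmul, pr_nsmul, pr_dual₂₁, pr_dual₂₂ hd]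
    positivity

end laurent

/-- Restriction to the boundary curve `x = 0`. -/
noncomputable def psi (k : Type) [Field k] : MvPolynomial (Fin 2) k →ₐ[k] Polynomial k :=
  MvPolynomial.aeval ![0, Polynomial.X]

theorem coeff_psi {k : Type} [Field k] (g : MvPolynomial (Fin 2) k) (j : ℕ) :
    (psi k g).coeff j = g.coeff (expo 0 j) := by
  rw [psi, MvPolynomial.aeval_def, MvPolynomial.eval₂_eq', Polynomial.finsetSum_coeff]
  have key : ∀ m ∈ g.support, ((algebraMap k (Polynomial k)) (MvPolynomial.coeff m g) *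
      ∏ i : Fin 2, (![0, Polynomial.X] : Fin 2 → Polynomial k) i ^ m i).coeff j =
      if m = expo 0 j then g.coeff m else 0 := by
    intro m _
    rw [Fin.prod_univ_two]
    simp only [Matrix.cons_val_zero, Matrix.cons_val_one]
    change (Polynomial.C (MvPolynomial.coeff m g) * (0 ^ m 0 * Polynomial.X ^ m 1)).coeff j = _
    rw [Polynomial.coeff_C_mul]
    split_ifs with h
    · rw [h, expo_zero, expo_one]; simp
    · by_cases h0 : m 0 = 0
      · have h1 : m 1 ≠ j := by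
          intro h1
          exact h (by rw [eq_expo m, h0, h1])
        rw [h0, pow_zero, one_mul, Polynomial.coeff_X_pow, if_neg (Ne.symm h1), mul_zero]
      · rw [zero_pow h0]; simp
  rw [Finset.sum_congr rfl key, Finset.sum_ite_eq' g.support (expo 0 j)]
  split_ifs with h
  · rfl
  · exact (MvPolynomial.notMem_support_iff.mp h).symm

section torus

variable {k : Type} [Field k]

/-- Exponents of the gluing data of a chart over the torus. -/
def exA (f₁ f₂ : Flag) (w₁ w₂ : ℤ × ℤ) (e : Fin 9) : ℤ × ℤ :=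
  if (e, false) = f₁ then w₁ else if (e, false) = f₂ then w₂ else 0

def exB (f₁ f₂ : Flag) (w₁ w₂ : ℤ × ℤ) (e : Fin 9) : ℤ × ℤ :=
  if (e, true) = f₁ then w₁ else if (e, true) = f₂ then w₂ else 0

/-- Exponents of the reference family. -/
def ex0 (e : Fin 9) : ℤ × ℤ := if e = 0 then (1, 0) else if e = 3 then (0, 1) else 0

def lam (f₁ f₂ : Flag) (e : Fin 9) : ℤ × ℤ :=
  ex0 e - exB f₁ f₂ (dual₁ (ray f₁) (ray f₂)) (dual₂ (ray f₁) (ray f₂)) e +
    exA f₁ f₂ (dual₁ (ray f₁) (ray f₂)) (dual₂ (ray f₁) (ray f₂)) e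

theorem lam_sum : ∀ f₁ f₂ : Flag, f₁.1 ≠ f₂.1 →
    ((ray f₁).1 * (ray f₂).2 - (ray f₁).2 * (ray f₂).1) ^ 2 = 1 →
    lam f₁ f₂ 0 + lam f₁ f₂ 1 + lam f₁ f₂ 2 = lam f₁ f₂ 3 + lam f₁ f₂ 4 + lam f₁ f₂ 5 ∧
    lam f₁ f₂ 0 + lam f₁ f₂ 1 + lam f₁ f₂ 2 = lam f₁ f₂ 6 + lam f₁ f₂ 7 + lam f₁ f₂ 8 := by
  decide +kernel

/-- The reference family over the torus. -/
noncomputable def torusFam (k : Type) [Field k] (D : Fin 8 → ℤ) :
    Fam (AddMonoidAlgebra k (ℤ × ℤ)) (Fin 8) (Fin 9) where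
  d := D
  a := fun _ => 1
  b := fun e => mono k (ex0 e)
  cop := fun _ => isCoprime_one_left

def gam (f₁ f₂ : Flag) : Fin 8 → ℤ × ℤ :=
  ![0, lam f₁ f₂ 0, lam f₁ f₂ 0 + lam f₁ f₂ 1, lam f₁ f₂ 3, lam f₁ f₂ 3 + lam f₁ f₂ 4,
    lam f₁ f₂ 6, lam f₁ f₂ 6 + lam f₁ f₂ 7, lam f₁ f₂ 0 + lam f₁ f₂ 1 + lam f₁ f₂ 2]

theorem gam_eq (f₁ f₂ : Flag) (h : f₁.1 ≠ f₂.1)
    (hd : ((ray f₁).1 * (ray f₂).2 - (ray f₁).2 * (ray f₂).1) ^ 2 = 1) (e : Fin 9) :
    gam f₁ f₂ (tgtT e) = gam f₁ f₂ (srcT e) + lam f₁ f₂ e := by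
  obtain ⟨h1, h2⟩ := lam_sum f₁ f₂ h hd
  fin_cases e
  · show lam f₁ f₂ 0 = 0 + lam f₁ f₂ 0
    rw [zero_add]
  · rfl
  · rfl
  · show lam f₁ f₂ 3 = 0 + lam f₁ f₂ 3
    rw [zero_add]
  · rfl
  · show lam f₁ f₂ 0 + lam f₁ f₂ 1 + lam f₁ f₂ 2 = lam f₁ f₂ 3 + lam f₁ f₂ 4 + lam f₁ f₂ 5
    exact h1
  · show lam f₁ f₂ 6 = 0 + lam f₁ f₂ 6
    rw [zero_add]
  · rfl
  · show lam f₁ f₂ 0 + lam f₁ f₂ 1 + lam f₁ f₂ 2 = lam f₁ f₂ 6 + lam f₁ f₂ 7 + lam f₁ f₂ 8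
    exact h2

theorem chart_a_mono (D : Fin 8 → ℤ) (f₁ f₂ : Flag) (h : f₁.1 ≠ f₂.1) (w₁ w₂ : ℤ × ℤ)
    (e : Fin 9) : (chart D f₁ f₂ h (mono k w₁) (mono k w₂)).a e = mono k (exA f₁ f₂ w₁ w₂ e) := by
  simp only [chart, exA]
  split_ifs <;> rfl

theorem chart_b_mono (D : Fin 8 → ℤ) (f₁ f₂ : Flag) (h : f₁.1 ≠ f₂.1) (w₁ w₂ : ℤ × ℤ)
    (e : Fin 9) : (chart D f₁ f₂ h (mono k w₁) (mono k w₂)).b e = mono k (exB f₁ f₂ w₁ w₂ e) := by
  simp only [chart, exB]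
  split_ifs <;> rfl

theorem iso_torus (C : Curve k (Fin 8) (Fin 9) 6) (hs : C.src = srcT) (ht : C.tgt = tgtT)
    (D : Fin 8 → ℤ) (f₁ f₂ : Flag) (h : f₁.1 ≠ f₂.1)
    (hd : ((ray f₁).1 * (ray f₂).2 - (ray f₁).2 * (ray f₂).1) ^ 2 = 1) :
    SheafIso C (chart D f₁ f₂ h (mono k (dual₁ (ray f₁) (ray f₂)))
      (mono k (dual₂ (ray f₁) (ray f₂)))) (torusFam k D) := by
  refine iso_scale C _ _ rfl
    (fun e => monoU k (-exA f₁ f₂ (dual₁ (ray f₁) (ray f₂)) (dual₂ (ray f₁) (ray f₂)) e))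
    (fun e => monoU k (ex0 e - exB f₁ f₂ (dual₁ (ray f₁) (ray f₂)) (dual₂ (ray f₁) (ray f₂)) e))
    ?_ ?_ (fun v => monoU k (gam f₁ f₂ v)) ?_
  · intro e
    rw [chart_a_mono, monoU_val, mono_mul, neg_add_cancel, mono_zero]
    rfl
  · intro e
    rw [chart_b_mono, monoU_val, mono_mul, sub_add_cancel]
    rfl
  · intro e
    ext1
    rw [Units.val_mul, Units.val_mul, monoU_val, monoU_val, monoU_val, monoU_val, mono_mul,
      mono_mul, hs, ht, gam_eq f₁ f₂ h hd e, lam]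
    congr 1
    abel

end torus

section main

variable (σ : FineV 2 6 4) (hσ : σ.val = valT) {k : Type} [Field k]
  (C : Curve k (Fin 8) (Fin 9) 6) (hs : C.src = srcT)
  (ht : C.tgt = tgtT) (hm : C.mark = markT) {m : ℕ} (P : ProjMap σ C m)

include hσ hs ht hm in
theorem exists_vec (D : Fin 8 → ℤ) (f₁ f₂ : Flag) (h : Ok D f₁ f₂) :
    ∃ G : Fin m → MvPolynomial (Fin 2) k,
      (∀ (B : Type) [CommRing B] [Algebra k B] (f : MvPolynomial (Fin 2) k →ₐ[k] B),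
        P.Φ B (chart D f₁ f₂ h.1 (f (MvPolynomial.X 0)) (f (MvPolynomial.X 1))) =
          Submodule.span B {fun i => f (G i)}) ∧ ∃ i, (G i).coeff 0 ≠ 0 := by
  have hst : Stable σ C (chart D f₁ f₂ h.1 (MvPolynomial.X 0 : MvPolynomial (Fin 2) k)
      (MvPolynomial.X 1)) :=
    stable_chart σ hσ C hs ht hm D f₁ f₂ h.1 h.2.2.1 h.2.2.2.1 h.2.2.2.2.1 h.2.2.2.2.2 _ _
  obtain ⟨G, hG, hG0⟩ := point_mv _ (P.isPoint _ _ hst)
  refine ⟨G, ?_, hG0⟩
  intro B _ _ f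
  have h1 := P.base _ B f _ hst
  rw [hG, bc_span, chart_map] at h1
  exact h1

theorem phi_X0 (w₁ w₂ : ℤ × ℤ) : phi k w₁ w₂ (MvPolynomial.X 0) = mono k w₁ := by
  simp [phi]

theorem phi_X1 (w₁ w₂ : ℤ × ℤ) : phi k w₁ w₂ (MvPolynomial.X 1) = mono k w₂ := by
  simp [phi]

theorem psi_X0 : psi k (MvPolynomial.X 0) = 0 := by
  simp [psi]

theorem psi_X1 : psi k (MvPolynomial.X 1) = Polynomial.X := by
  simp [psi]

include hσ hs ht hm in
theorem surface (D : Fin 8 → ℤ) : ∃ t : Flag → Flag → ℤ × ℤ,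
    (∀ f₁ f₂ g₁ g₂, Ok D f₁ f₂ → Ok D g₁ g₂ → 0 ≤ pr (ray f₁) (t g₁ g₂ - t f₁ f₂) ∧
      0 ≤ pr (ray f₂) (t g₁ g₂ - t f₁ f₂)) ∧
    (∀ f₁ f₂ g (h : Ok D f₁ f₂) (b : ℤ), Ok D f₁ g → ray f₂ + ray g = b • ray f₁ →
      HasDeg (P.Φ (Polynomial k) (chart D f₁ f₂ h.1 0 Polynomial.X))
        (pr (ray f₂) (t f₁ g - t f₁ f₂))) ∧
    ∀ f₁ f₂ g₁ g₂ (h : Ok D f₁ f₂) (h' : Ok D g₁ g₂), t f₁ f₂ = t g₁ g₂ →
      P.Φ k (chart D f₁ f₂ h.1 0 0) = P.Φ k (chart D g₁ g₂ h'.1 0 0) := by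
  classical
  by_cases hex : ∃ r₁ r₂, Ok D r₁ r₂
  swap
  · refine ⟨fun _ _ => 0, ?_, ?_, ?_⟩
    · intro f₁ f₂ _ _ h
      exact absurd ⟨f₁, f₂, h⟩ hex
    · intro f₁ f₂ _ h
      exact absurd ⟨f₁, f₂, h⟩ hex
    · intro f₁ f₂ _ _ h
      exact absurd ⟨f₁, f₂, h⟩ hex
  obtain ⟨r₁, r₂, hr⟩ := hex
  -- the reference vector
  obtain ⟨R, hR, hR0⟩ := exists_vec σ hσ C hs ht hm P D r₁ r₂ hr
  have hdr := hr.2.1
  set T : Fin m → AddMonoidAlgebra k (ℤ × ℤ) := fun i =>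
    phi k (dual₁ (ray r₁) (ray r₂)) (dual₂ (ray r₁) (ray r₂)) (R i) with hT
  have hTne : T ≠ 0 := by
    obtain ⟨i, hi⟩ := hR0
    intro h0
    have h1 : (T i).coeff 0 = 0 := by rw [h0]; rfl
    rw [hT] at h1
    simp only at h1
    rw [coeff_phi_of_nonneg hdr (R i) 0 0 0 (by simp [pr_zero]) (by simp [pr_zero]), expo_zz] at h1
    exact hi h1
  have hTspan := hR _ (phi k (dual₁ (ray r₁) (ray r₂)) (dual₂ (ray r₁) (ray r₂)))
  rw [phi_X0, phi_X1] at hTspan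
  -- data at each corner
  have hcor : ∀ f : Flag × Flag, ∃ (G : Fin m → MvPolynomial (Fin 2) k) (t : ℤ × ℤ) (c : k),
      ∀ h : Ok D f.1 f.2,
      (∀ (B : Type) [CommRing B] [Algebra k B] (φ : MvPolynomial (Fin 2) k →ₐ[k] B),
        P.Φ B (chart D f.1 f.2 h.1 (φ (MvPolynomial.X 0)) (φ (MvPolynomial.X 1))) =
          Submodule.span B {fun i => φ (G i)}) ∧ (∃ i, (G i).coeff 0 ≠ 0) ∧ c ≠ 0 ∧
      ∀ i u, (phi k (dual₁ (ray f.1) (ray f.2)) (dual₂ (ray f.1) (ray f.2)) (G i)).coeff u =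
        c * (T i).coeff (u + t) := by
    rintro ⟨f₁, f₂⟩
    by_cases h : Ok D f₁ f₂
    swap
    · exact ⟨0, 0, 0, fun h' => absurd h' h⟩
    obtain ⟨G, hG, hG0⟩ := exists_vec σ hσ C hs ht hm P D f₁ f₂ h
    have hGspan := hG _ (phi k (dual₁ (ray f₁) (ray f₂)) (dual₂ (ray f₁) (ray f₂)))
    rw [phi_X0, phi_X1] at hGspan
    have hiso : SheafIso C
        (chart D r₁ r₂ hr.1 (mono k (dual₁ (ray r₁) (ray r₂))) (mono k (dual₂ (ray r₁) (ray r₂))))
        (chart D f₁ f₂ h.1 (mono k (dual₁ (ray f₁) (ray f₂)))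
          (mono k (dual₂ (ray f₁) (ray f₂)))) :=
      SheafIso.trans C (iso_torus C hs ht D r₁ r₂ hr.1 hdr)
        (SheafIso.symm C (iso_torus C hs ht D f₁ f₂ h.1 h.2.1))
    have hΦ := P.iso _ _ _
      (stable_chart σ hσ C hs ht hm D r₁ r₂ hr.1 hr.2.2.1 hr.2.2.2.1 hr.2.2.2.2.1 hr.2.2.2.2.2 _ _)
      (stable_chart σ hσ C hs ht hm D f₁ f₂ h.1 h.2.2.1 h.2.2.2.1 h.2.2.2.2.1 h.2.2.2.2.2 _ _)
      hiso
    rw [hTspan, hGspan] at hΦ
    obtain ⟨t, c, hc, hco⟩ := laurent_span T _ hTne hΦ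
    exact ⟨G, t, c, fun _ => ⟨hG, hG0, hc, hco⟩⟩
  choose G t c hall using hcor
  -- facts
  have h0 : ∀ f : Flag × Flag, Ok D f.1 f.2 → ∀ i, (G f i).coeff 0 = c f * (T i).coeff (t f) := by
    intro f h i
    obtain ⟨_, _, _, h4⟩ := hall f h
    have h5 := h4 i 0
    rw [zero_add, coeff_phi_of_nonneg h.2.1 (G f i) 0 0 0 (by simp [pr_zero]) (by simp [pr_zero]),
      expo_zz] at h5
    exact h5
  have hS : ∀ f : Flag × Flag, Ok D f.1 f.2 → ∃ i, (T i).coeff (t f) ≠ 0 := by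
    intro f h
    obtain ⟨_, ⟨i, hi⟩, _, _⟩ := hall f h
    refine ⟨i, fun h1 => hi ?_⟩
    rw [h0 f h i, h1, mul_zero]
  have hpos : ∀ f : Flag × Flag, Ok D f.1 f.2 → ∀ i u, (T i).coeff u ≠ 0 →
      0 ≤ pr (ray f.1) (u - t f) ∧ 0 ≤ pr (ray f.2) (u - t f) := by
    intro f h i u hu
    obtain ⟨_, _, hc, h4⟩ := hall f h
    refine nonneg_of_coeff_phi h.2.1 (G f i) (u - t f) ?_
    rw [h4, sub_add_cancel]
    exact mul_ne_zero hc hu
  refine ⟨fun f₁ f₂ => t (f₁, f₂), ?_, ?_, ?_⟩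
  · intro f₁ f₂ g₁ g₂ h h'
    obtain ⟨i, hi⟩ := hS (g₁, g₂) h'
    exact hpos (f₁, f₂) h i _ hi
  · intro f₁ f₂ g h b h' hb
    obtain ⟨hG, hG0, hc, hco⟩ := hall (f₁, f₂) h
    obtain ⟨hG', hG0', hc', hco'⟩ := hall (f₁, g) h'
    have hΦ := hG _ (psi k)
    simp only [psi_X0, psi_X1] at hΦ
    -- the two corners are on the same edge
    have e1 : 0 ≤ pr (ray f₁) (t (f₁, g) - t (f₁, f₂)) := by
      obtain ⟨i, hi⟩ := hS (f₁, g) h'
      exact (hpos (f₁, f₂) h i _ hi).1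
    have e2 : 0 ≤ pr (ray f₁) (t (f₁, f₂) - t (f₁, g)) := by
      obtain ⟨i, hi⟩ := hS (f₁, f₂) h
      exact (hpos (f₁, g) h' i _ hi).1
    have e3 : pr (ray f₁) (t (f₁, g) - t (f₁, f₂)) = 0 := by
      rw [pr_sub] at e1 e2 ⊢
      omega
    have e4 : 0 ≤ pr (ray f₂) (t (f₁, g) - t (f₁, f₂)) := by
      obtain ⟨i, hi⟩ := hS (f₁, g) h'
      exact (hpos (f₁, f₂) h i _ hi).2
    obtain ⟨p, hp⟩ := Int.eq_ofNat_of_zero_le e4
    refine ⟨_, hΦ, ?_, ?_, ?_⟩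
    · obtain ⟨i, hi⟩ := hG0
      refine ⟨i, ?_⟩
      rw [coeff_psi, expo_zz]
      exact hi
    · intro i
      rw [hp]
      have : ((psi k) (G (f₁, f₂) i)).natDegree ≤ p := by
        rw [Polynomial.natDegree_le_iff_coeff_eq_zero]
        intro j hj
        by_contra hne
        rw [coeff_psi] at hne
        -- u = j w₂
        have hu1 : pr (ray f₁) (j • dual₂ (ray f₁) (ray f₂)) = (0 : ℕ) := by
          rw [pr_nsmul, pr_dual₁₂]; simp
        have hu2 : pr (ray f₂) (j • dual₂ (ray f₁) (ray f₂)) = (j : ℕ) := by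
          rw [pr_nsmul, pr_dual₂₂ h.2.1]; simp
        rw [← coeff_phi_of_nonneg h.2.1 (G (f₁, f₂) i) _ 0 j hu1 hu2, hco] at hne
        have hne' := right_ne_zero_of_mul hne
        have h7 := (hpos (f₁, g) h' i _ hne').2
        have h8 : pr (ray f₂) (j • dual₂ (ray f₁) (ray f₂) + t (f₁, f₂) - t (f₁, g)) +
            pr (ray g) (j • dual₂ (ray f₁) (ray f₂) + t (f₁, f₂) - t (f₁, g)) =
            b * pr (ray f₁) (j • dual₂ (ray f₁) (ray f₂) + t (f₁, f₂) - t (f₁, g)) := by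
          rw [← pr_add_left, hb, pr_zsmul_left]
        have h9 : pr (ray f₁) (j • dual₂ (ray f₁) (ray f₂) + t (f₁, f₂) - t (f₁, g)) = 0 := by
          rw [pr_sub, pr_add, hu1]
          rw [pr_sub] at e3
          simp only [Nat.cast_zero]
          omega
        rw [h9, mul_zero, pr_sub, pr_add, hu2] at h8
        simp only at h7
        rw [pr_sub] at hp
        have : (p : ℤ) < (j : ℤ) := by exact_mod_cast hj
        omega
      exact_mod_cast this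
    · obtain ⟨i, hi⟩ := hS (f₁, g) h'
      have h5 : (G (f₁, f₂) i).coeff (expo 0 p) ≠ 0 := by
        rw [← coeff_phi_of_nonneg h.2.1 (G (f₁, f₂) i) (t (f₁, g) - t (f₁, f₂)) 0 p
          (by rw [e3]; simp) hp, hco, sub_add_cancel]
        exact mul_ne_zero hc hi
      have h6 : ((psi k) (G (f₁, f₂) i)).coeff p ≠ 0 := by
        rw [coeff_psi]; exact h5
      refine ⟨i, ?_, ?_⟩
      · intro h7
        rw [h7] at h6
        simp at h6
      · have h8 := Polynomial.le_natDegree_of_ne_zero h6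
        have h9 : ((psi k) (G (f₁, f₂) i)).natDegree ≤ p := by
          rw [Polynomial.natDegree_le_iff_coeff_eq_zero]
          intro j hj
          by_contra hne
          rw [coeff_psi] at hne
          have hu1 : pr (ray f₁) (j • dual₂ (ray f₁) (ray f₂)) = (0 : ℕ) := by
            rw [pr_nsmul, pr_dual₁₂]; simp
          have hu2 : pr (ray f₂) (j • dual₂ (ray f₁) (ray f₂)) = (j : ℕ) := by
            rw [pr_nsmul, pr_dual₂₂ h.2.1]; simp
          rw [← coeff_phi_of_nonneg h.2.1 (G (f₁, f₂) i) _ 0 j hu1 hu2, hco] at hne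
          have hne' := right_ne_zero_of_mul hne
          have h7 := (hpos (f₁, g) h' i _ hne').2
          have h8 : pr (ray f₂) (j • dual₂ (ray f₁) (ray f₂) + t (f₁, f₂) - t (f₁, g)) +
              pr (ray g) (j • dual₂ (ray f₁) (ray f₂) + t (f₁, f₂) - t (f₁, g)) =
              b * pr (ray f₁) (j • dual₂ (ray f₁) (ray f₂) + t (f₁, f₂) - t (f₁, g)) := by
            rw [← pr_add_left, hb, pr_zsmul_left]
          have h9 : pr (ray f₁) (j • dual₂ (ray f₁) (ray f₂) + t (f₁, f₂) - t (f₁, g)) = 0 := by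
            rw [pr_sub, pr_add, hu1]
            rw [pr_sub] at e3
            simp only [Nat.cast_zero]
            omega
          rw [h9, mul_zero, pr_sub, pr_add, hu2] at h8
          simp only at h7
          rw [pr_sub] at hp
          have : (p : ℤ) < (j : ℤ) := by exact_mod_cast hj
          omega
        rw [hp]
        exact_mod_cast le_antisymm h9 h8
  · intro f₁ f₂ g₁ g₂ h h' hteq
    simp only at hteq
    have h1 := (hall (f₁, f₂) h).1 k (MvPolynomial.aeval (fun _ => (0 : k)))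
    have h2 := (hall (g₁, g₂) h').1 k (MvPolynomial.aeval (fun _ => (0 : k)))
    simp only [MvPolynomial.aeval_X] at h1 h2
    rw [h1, h2]
    have hev : ∀ g : MvPolynomial (Fin 2) k,
        (MvPolynomial.aeval (fun _ => (0 : k))) g = g.coeff 0 := by
      intro g
      rw [← MvPolynomial.constantCoeff_eq]
      have := MvPolynomial.aeval_zero' (σ := Fin 2) (S₁ := k) g
      simpa using this
    simp only [hev]
    have h3 : (fun i => (G (f₁, f₂) i).coeff 0) =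
        (c (f₁, f₂) / c (g₁, g₂)) • (fun i => (G (g₁, g₂) i).coeff 0) := by
      funext i
      have hc' : c (g₁, g₂) ≠ 0 := (hall (g₁, g₂) h').2.2.1
      rw [Pi.smul_apply, h0 (f₁, f₂) h i, h0 (g₁, g₂) h' i, hteq, smul_eq_mul]
      field_simp
    rw [h3]
    have hunit : IsUnit (c (f₁, f₂) / c (g₁, g₂)) :=
      isUnit_iff_ne_zero.mpr (div_ne_zero (hall (f₁, f₂) h).2.2.1 (hall (g₁, g₂) h').2.2.1)
    exact Submodule.span_singleton_smul_eq hunit _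

end main

end Pool.Agent.helper72.CJ
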