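import Mathlib
import Pool.Agent.helper72.CJ.Theta
import Pool.Agent.helper72.CJ.U

/-!
# The two sides of a boundary curve
-/

namespace Pool.Agent.helper72.CJ

open Finset Pool.Agent.helper4.CJ Pool.Agent.helper33.CJ

section cross

variable {k : Type} [Field k]

/-- The factor by which the value at the source branch of `e` changes under the shift at `e₀`. -/
noncomputable def facS (C : Curve k (Fin 8) (Fin 9) 6) (e₀ e : Fin 9) : k :=
  (if C.src e = C.src e₀ then C.p e - C.p e₀ else 1) *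
    (if C.src e = C.tgt e₀ then (C.p e - C.q e₀)⁻¹ else 1)

noncomputable def facT (C : Curve k (Fin 8) (Fin 9) 6) (e₀ e : Fin 9) : k :=
  (if C.tgt e = C.src e₀ then C.q e - C.p e₀ else 1) *
    (if C.tgt e = C.tgt e₀ then (C.q e - C.q e₀)⁻¹ else 1)

theorem facS_ne (C : Curve k (Fin 8) (Fin 9) 6) (e₀ e : Fin 9) (h : e ≠ e₀) :
    facS C e₀ e ≠ 0 := by
  unfold facS
  refine mul_ne_zero ?_ ?_
  · split_ifs with h1
    · exact sub_ne_zero.mpr fun h2 => h (C.pp e e₀ h1 h2)
    · exact one_ne_zero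
  · split_ifs with h1
    · exact inv_ne_zero (sub_ne_zero.mpr (C.pq e e₀ h1))
    · exact one_ne_zero

theorem facT_ne (C : Curve k (Fin 8) (Fin 9) 6) (e₀ e : Fin 9) (h : e ≠ e₀) :
    facT C e₀ e ≠ 0 := by
  unfold facT
  refine mul_ne_zero ?_ ?_
  · split_ifs with h1
    · exact sub_ne_zero.mpr fun h2 => C.pq e₀ e h1.symm h2.symm
    · exact one_ne_zero
  · split_ifs with h1
    · exact inv_ne_zero (sub_ne_zero.mpr fun h2 => h (C.qq e e₀ h1 h2))
    · exact one_ne_zero

open Classical in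
noncomputable def uS (C : Curve k (Fin 8) (Fin 9) 6) (e₀ e : Fin 9) : kˣ :=
  if h : e ≠ e₀ then Units.mk0 (facS C e₀ e) (facS_ne C e₀ e h) else 1

open Classical in
noncomputable def uT (C : Curve k (Fin 8) (Fin 9) 6) (e₀ e : Fin 9) : kˣ :=
  if h : e ≠ e₀ then Units.mk0 (facT C e₀ e) (facT_ne C e₀ e h) else 1

theorem uS_val (C : Curve k (Fin 8) (Fin 9) 6) (e₀ e : Fin 9) (h : e ≠ e₀) :
    (uS C e₀ e : k) = facS C e₀ e := by
  simp [uS, h]

theorem uT_val (C : Curve k (Fin 8) (Fin 9) 6) (e₀ e : Fin 9) (h : e ≠ e₀) :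
    (uT C e₀ e : k) = facT C e₀ e := by
  simp [uT, h]

/-- Solving for a rescaling when the products along the three paths agree. -/
theorem exists_gauge {G : Type} [CommGroup G] (ρ : Fin 9 → G)
    (h1 : ρ 0 * ρ 1 * ρ 2 = ρ 3 * ρ 4 * ρ 5) (h2 : ρ 0 * ρ 1 * ρ 2 = ρ 6 * ρ 7 * ρ 8) :
    ∃ c : Fin 8 → G, ∀ e, c (tgtT e) = c (srcT e) * ρ e := by
  refine ⟨![1, ρ 0, ρ 0 * ρ 1, ρ 3, ρ 3 * ρ 4, ρ 6, ρ 6 * ρ 7, ρ 0 * ρ 1 * ρ 2], ?_⟩
  intro e
  fin_cases e
  · show ρ 0 = 1 * ρ 0
    rw [one_mul]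
  · rfl
  · rfl
  · show ρ 3 = 1 * ρ 3
    rw [one_mul]
  · rfl
  · exact h1
  · show ρ 6 = 1 * ρ 6
    rw [one_mul]
  · rfl
  · exact h2

theorem path_prod {G : Type} [CommGroup G] (ρ : Fin 9 → G) :
    ∏ e ∈ univ.filter (fun e : Fin 9 => e.val / 3 = 0), ρ e = ρ 0 * ρ 1 * ρ 2 ∧
    ∏ e ∈ univ.filter (fun e : Fin 9 => e.val / 3 = 1), ρ e = ρ 3 * ρ 4 * ρ 5 ∧
    ∏ e ∈ univ.filter (fun e : Fin 9 => e.val / 3 = 2), ρ e = ρ 6 * ρ 7 * ρ 8 := by
  have h0 : univ.filter (fun e : Fin 9 => e.val / 3 = 0) = {0, 1, 2} := by decide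
  have h1 : univ.filter (fun e : Fin 9 => e.val / 3 = 1) = {3, 4, 5} := by decide
  have h2 : univ.filter (fun e : Fin 9 => e.val / 3 = 2) = {6, 7, 8} := by decide
  rw [h0, h1, h2]
  refine ⟨?_, ?_, ?_⟩ <;>
  · rw [Finset.prod_insert (by decide), Finset.prod_insert (by decide), Finset.prod_singleton,
      mul_assoc]

/-- One can change `ρ` at `e₀` and `e₁`, on different paths, so that the products agree. -/
theorem exists_adjust {G : Type} [CommGroup G] (ρ : Fin 9 → G) (e₀ e₁ : Fin 9)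
    (h : e₀.val / 3 ≠ e₁.val / 3) :
    ∃ (x y : G) (c : Fin 8 → G), ∀ e, c (tgtT e) = c (srcT e) *
      (if e = e₀ then x else if e = e₁ then y else ρ e) := by
  have hne01 : e₀ ≠ e₁ := fun h' => h (by rw [h'])
  obtain ⟨i₂, h20, h21, hi2⟩ : ∃ i : ℕ, i ≠ e₀.val / 3 ∧ i ≠ e₁.val / 3 ∧ i < 3 := by
    have h0 : e₀.val / 3 < 3 := by omega
    have h1 : e₁.val / 3 < 3 := by omega
    by_cases a : e₀.val / 3 = 0
    · by_cases b : e₁.val / 3 = 1
      · exact ⟨2, by omega, by omega, by omega⟩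
      · exact ⟨1, by omega, by omega, by omega⟩
    · by_cases b : e₁.val / 3 = 0
      · by_cases c : e₀.val / 3 = 1
        · exact ⟨2, by omega, by omega, by omega⟩
        · exact ⟨1, by omega, by omega, by omega⟩
      · exact ⟨0, by omega, by omega, by omega⟩
  let P : (Fin 9 → G) → ℕ → G := fun ρ i => ∏ e ∈ univ.filter (fun e : Fin 9 => e.val / 3 = i), ρ e
  let R : ℕ → Fin 9 → G := fun i e₂ =>
    ∏ e ∈ (univ.filter (fun e : Fin 9 => e.val / 3 = i)).erase e₂, ρ e
  let x := P ρ i₂ / R (e₀.val / 3) e₀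
  let y := P ρ i₂ / R (e₁.val / 3) e₁
  let τ : Fin 9 → G := fun e => if e = e₀ then x else if e = e₁ then y else ρ e
  have key : ∀ i, i < 3 → P τ i = P ρ i₂ := by
    intro i hi
    by_cases hi0 : i = e₀.val / 3
    · subst hi0
      have hmem : e₀ ∈ univ.filter (fun e : Fin 9 => e.val / 3 = e₀.val / 3) := by simp
      have h3 : P τ (e₀.val / 3) = τ e₀ * R (e₀.val / 3) e₀ := by
        simp only [P, R]
        rw [← Finset.mul_prod_erase _ _ hmem]
        congr 1
        refine Finset.prod_congr rfl fun e he => ?_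
        rw [Finset.mem_erase, Finset.mem_filter] at he
        have he1 : e ≠ e₁ := fun h' => h (by rw [← he.2.2, h'])
        simp only [τ]
        rw [if_neg he.1, if_neg he1]
      rw [h3]
      simp only [τ, if_true, x, div_mul_cancel]
    · by_cases hi1 : i = e₁.val / 3
      · subst hi1
        have hmem : e₁ ∈ univ.filter (fun e : Fin 9 => e.val / 3 = e₁.val / 3) := by simp
        have h3 : P τ (e₁.val / 3) = τ e₁ * R (e₁.val / 3) e₁ := by
          simp only [P, R]
          rw [← Finset.mul_prod_erase _ _ hmem]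
          congr 1
          refine Finset.prod_congr rfl fun e he => ?_
          rw [Finset.mem_erase, Finset.mem_filter] at he
          have he1 : e ≠ e₀ := fun h' => h (by rw [← he.2.2, h'])
          simp only [τ]
          rw [if_neg he1, if_neg he.1]
        rw [h3]
        simp only [τ, if_neg hne01.symm, if_true, y, div_mul_cancel]
      · have hii : i = i₂ := by omega
        subst hii
        simp only [P]
        refine Finset.prod_congr rfl fun e he => ?_
        rw [Finset.mem_filter] at he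
        have he0 : e ≠ e₀ := fun h' => hi0 (by rw [← he.2, h'])
        have he1 : e ≠ e₁ := fun h' => hi1 (by rw [← he.2, h'])
        simp only [τ]
        rw [if_neg he0, if_neg he1]
  obtain ⟨p0, p1, p2⟩ := path_prod τ
  obtain ⟨c, hc⟩ := exists_gauge τ
    (by rw [← p0, ← p1]; exact (key 0 (by omega)).trans (key 1 (by omega)).symm)
    (by rw [← p0, ← p2]; exact (key 0 (by omega)).trans (key 2 (by omega)).symm)
  exact ⟨x, y, c, hc⟩

theorem chart_a (D : Fin 8 → ℤ) (f₁ f₂ : Flag) (h : f₁.1 ≠ f₂.1) {A : Type} [CommRing A]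
    (x y : A) (e : Fin 9) : (chart D f₁ f₂ h x y).a e =
      if (e, false) = f₁ then x else if (e, false) = f₂ then y else 1 := rfl

theorem chart_b (D : Fin 8 → ℤ) (f₁ f₂ : Flag) (h : f₁.1 ≠ f₂.1) {A : Type} [CommRing A]
    (x y : A) (e : Fin 9) : (chart D f₁ f₂ h x y).b e =
      if (e, true) = f₁ then x else if (e, true) = f₂ then y else 1 := rfl

/-- The family in the middle. -/
noncomputable def midFam (C : Curve k (Fin 8) (Fin 9) 6) (D' : Fin 8 → ℤ) (e₀ : Fin 9)
    (F : Fam (Polynomial k) (Fin 8) (Fin 9)) : Fam (Polynomial k) (Fin 8) (Fin 9) where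
  d := D'
  a := fun e => if e = e₀ then 0 else Polynomial.C ((uT C e₀ e)⁻¹ : kˣ).val * F.a e
  b := fun e => if e = e₀ then 1 else Polynomial.C ((uS C e₀ e)⁻¹ : kˣ).val * F.b e
  cop := by
    intro e
    by_cases h : e = e₀
    · simp [h, isCoprime_one_right]
    · rw [if_neg h, if_neg h]
      have h1 : IsUnit (Polynomial.C ((uT C e₀ e)⁻¹ : kˣ).val) :=
        Polynomial.isUnit_C.mpr (Units.isUnit _)
      have h2 : IsUnit (Polynomial.C ((uS C e₀ e)⁻¹ : kˣ).val) :=
        Polynomial.isUnit_C.mpr (Units.isUnit _)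
      exact (isCoprime_mul_unit_left_left h1 _ _).mpr
        ((isCoprime_mul_unit_left_right h2 _ _).mpr (F.cop e))

/-- Constants as units of the polynomial ring. -/
noncomputable def cU (u : kˣ) : (Polynomial k)ˣ := Units.map (Polynomial.C : k →+* Polynomial k) u

theorem cU_val (u : kˣ) : ((cU u : (Polynomial k)ˣ) : Polynomial k) = Polynomial.C (u : k) := rfl

theorem iso_mid (C : Curve k (Fin 8) (Fin 9) 6) (hs : C.src = srcT) (ht : C.tgt = tgtT)
    (D D' : Fin 8 → ℤ) (e₀ : Fin 9) (f : Flag)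
    (hD : D' = D + Pi.single (srcT e₀) 1 - Pi.single (tgtT e₀) 1) (h : (e₀, true).1 ≠ f.1) :
    SheafIso C (chart D (e₀, true) f h (0 : Polynomial k) Polynomial.X)
      (midFam C D' e₀ (chart D (e₀, true) f h (0 : Polynomial k) Polynomial.X)) := by
  have hne : C.src e₀ ≠ C.tgt e₀ := by
    rw [hs, ht]
    revert e₀
    intro e₀ _ _
    clear * -
    revert e₀
    decide
  refine iso_shift C _ _ e₀ hne ?_ ?_ ?_ (uS C e₀) (uT C e₀) ?_ ?_ ?_ ?_
  · simp [chart_b]
  · simp [midFam]
  · rw [hs, ht]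
    exact hD
  · intro e he
    rw [uS_val C e₀ e he]
    rfl
  · intro e he
    rw [uT_val C e₀ e he]
    rfl
  · intro e he
    simp only [midFam, if_neg he]
    change Polynomial.C ((uS C e₀ e : kˣ) : k) * _ = _
    rw [← mul_assoc, ← Polynomial.C_mul, Units.mul_inv, Polynomial.C_1, one_mul]
  · intro e he
    simp only [midFam, if_neg he]
    change Polynomial.C ((uT C e₀ e : kˣ) : k) * _ = _
    rw [← mul_assoc, ← Polynomial.C_mul, Units.mul_inv, Polynomial.C_1, one_mul]

theorem iso_cross (C : Curve k (Fin 8) (Fin 9) 6) (hs : C.src = srcT) (ht : C.tgt = tgtT)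
    (D D' : Fin 8 → ℤ) (e₀ : Fin 9) (f : Flag) (hf : e₀.val / 3 ≠ f.1.val / 3)
    (hD : D' = D + Pi.single (srcT e₀) 1 - Pi.single (tgtT e₀) 1) (h : (e₀, true).1 ≠ f.1)
    (h' : (e₀, false).1 ≠ f.1) :
    ∃ κ : kˣ, SheafIso C (chart D (e₀, true) f h (0 : Polynomial k) Polynomial.X)
      (chart D' (e₀, false) f h' (0 : Polynomial k) (Polynomial.C (κ : k) * Polynomial.X)) := by
  obtain ⟨x, y, c, hc⟩ := exists_adjust (fun e => uS C e₀ e / uT C e₀ e) e₀ f.1 hf
  obtain ⟨e₁, s⟩ := f
  simp only at h h' hf hc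
  have h01 : e₁ ≠ e₀ := fun h1 => h h1.symm
  let κ : kˣ := if s then y * uT C e₀ e₁ / uS C e₀ e₁ else uS C e₀ e₁ / (y * uT C e₀ e₁)
  let α : Fin 9 → kˣ := fun e => if e = e₀ then x⁻¹ else
    if e = e₁ then (if s then uT C e₀ e else κ * uT C e₀ e) else uT C e₀ e
  let β : Fin 9 → kˣ := fun e => if e = e₀ then 1 else
    if e = e₁ then (if s then κ * uS C e₀ e else uS C e₀ e) else uS C e₀ e
  refine ⟨κ, SheafIso.trans C (iso_mid C hs ht D D' e₀ (e₁, s) hD h) ?_⟩
  refine iso_scale C _ _ rfl (fun e => cU (α e)) (fun e => cU (β e)) ?_ ?_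
    (fun v => cU (c v)) ?_
  · intro e
    rw [cU_val, chart_a]
    by_cases he : e = e₀
    · subst he
      simp [midFam]
    · have h2 : (e, false) ≠ (e₀, false) := fun h3 => he (by simpa using h3)
      simp only [midFam, if_neg he, if_neg h2, chart_a]
      have h3 : (e, false) ≠ (e₀, true) := by simp
      rw [if_neg h3]
      by_cases he1 : e = e₁
      · subst he1
        cases s
        · simp only [α, if_neg he, if_true, Bool.false_eq_true, if_false]
          rw [← mul_assoc, ← Polynomial.C_mul, Units.val_mul, mul_assoc, Units.mul_inv, mul_one]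
        · have h4 : (e, false) ≠ (e, true) := by simp
          simp only [α, if_neg he, if_true, if_neg h4]
          rw [mul_one, ← Polynomial.C_mul, Units.mul_inv, Polynomial.C_1]
      · have h4 : (e, false) ≠ (e₁, s) := fun h5 => he1 (by simpa using (Prod.ext_iff.mp h5).1)
        simp only [α, if_neg he, if_neg he1, if_neg h4]
        rw [mul_one, ← Polynomial.C_mul, Units.mul_inv, Polynomial.C_1]
  · intro e
    rw [cU_val, chart_b]
    by_cases he : e = e₀
    · subst he
      have h4 : (e, true) ≠ (e₁, s) := fun h5 => h01 (by simpa using (Prod.ext_iff.mp h5).1.symm)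
      simp [midFam, β, h4]
    · have h2 : (e, true) ≠ (e₀, true) := fun h3 => he (by simpa using h3)
      simp only [midFam, if_neg he, chart_b, if_neg h2]
      have h3 : (e, true) ≠ (e₀, false) := by simp
      rw [if_neg h3]
      by_cases he1 : e = e₁
      · subst he1
        cases s
        · have h4 : (e, true) ≠ (e, false) := by simp
          simp only [β, if_neg he, if_true, if_neg h4, Bool.false_eq_true, if_false]
          rw [mul_one, ← Polynomial.C_mul, Units.mul_inv, Polynomial.C_1]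
        · simp only [β, if_neg he, if_true]
          rw [← mul_assoc, ← Polynomial.C_mul, Units.val_mul, mul_assoc, Units.mul_inv, mul_one]
      · have h4 : (e, true) ≠ (e₁, s) := fun h5 => he1 (by simpa using (Prod.ext_iff.mp h5).1)
        simp only [β, if_neg he, if_neg he1, if_neg h4]
        rw [mul_one, ← Polynomial.C_mul, Units.mul_inv, Polynomial.C_1]
  · intro e
    have h5 : α e * c (tgtT e) = β e * c (srcT e) := by
      rw [hc e]
      by_cases he : e = e₀
      · simp only [α, β, if_pos he]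
        rw [mul_comm (c (srcT e)) x, ← mul_assoc, inv_mul_cancel]
      · by_cases he1 : e = e₁
        · subst he1
          cases s
          · simp only [α, β, κ, if_neg he, if_true, Bool.false_eq_true, if_false]
            rw [div_mul_eq_mul_div, mul_comm (c (srcT e)) y, ← mul_assoc]
            rw [show uS C e₀ e * uT C e₀ e / (y * uT C e₀ e) * y = uS C e₀ e by
              rw [mul_div_mul_right_eq_div, div_mul_cancel]]
          · simp only [α, β, κ, if_neg he, if_true]
            rw [div_mul_cancel, mul_comm (c (srcT e)) y, ← mul_assoc, mul_comm (uT C e₀ e) y]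
        · simp only [α, β, if_neg he, if_neg he1]
          rw [mul_comm (c (srcT e)), ← mul_assoc, mul_div_cancel]
    rw [hs, ht]
    have h6 := congrArg cU h5
    simp only [cU, map_mul] at h6 ⊢
    exact h6

end cross

section main

variable (σ : FineV 2 6 4) (hσ : σ.val = valT) {k : Type} [Field k]
  (C : Curve k (Fin 8) (Fin 9) 6) (hs : C.src = srcT)
  (ht : C.tgt = tgtT) (hm : C.mark = markT) {m : ℕ} (P : ProjMap σ C m)

include hσ hs ht hm in
theorem cross (D D' : Fin 8 → ℤ) (e₀ : Fin 9) (f : Flag) (hf : e₀.val / 3 ≠ f.1.val / 3)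
    (hD : D' = D + Pi.single (srcT e₀) 1 - Pi.single (tgtT e₀) 1)
    (h : Ok D (e₀, true) f) (h' : Ok D' (e₀, false) f) (p : ℤ)
    (hp : HasDeg (P.Φ (Polynomial k) (chart D (e₀, true) f h.1 0 Polynomial.X)) p) :
    HasDeg (P.Φ (Polynomial k) (chart D' (e₀, false) f h'.1 0 Polynomial.X)) p := by
  obtain ⟨κ, hκ⟩ := iso_cross C hs ht D D' e₀ f hf hD h.1 h'.1
  have s1 := stable_chart σ hσ C hs ht hm D (e₀, true) f h.1 h.2.2.1 h.2.2.2.1 h.2.2.2.2.1
    h.2.2.2.2.2 (0 : Polynomial k) Polynomial.X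
  have s2 := stable_chart σ hσ C hs ht hm D' (e₀, false) f h'.1 h'.2.2.1 h'.2.2.2.1 h'.2.2.2.2.1
    h'.2.2.2.2.2 (0 : Polynomial k) (Polynomial.C (κ : k) * Polynomial.X)
  rw [P.iso _ _ _ s1 s2 hκ] at hp
  have h3 := hasDeg_scale _ p hp κ⁻¹
  rw [← P.base _ _ _ _ s2, chart_map] at h3
  have h4 : ((Polynomial.aeval (Polynomial.C ((κ⁻¹ : kˣ) : k) * Polynomial.X) :
      Polynomial k →ₐ[k] Polynomial k) : Polynomial k →+* Polynomial k)
      (Polynomial.C (κ : k) * Polynomial.X) = Polynomial.X := by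
    simp only [RingHom.coe_coe, map_mul, Polynomial.aeval_X, Polynomial.aeval_C]
    rw [Polynomial.algebraMap_eq, ← mul_assoc, ← Polynomial.C_mul, Units.mul_inv, Polynomial.C_1,
      one_mul]
  rw [h4, map_zero] at h3
  exact h3

end main

end Pool.Agent.helper72.CJ
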